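import Pool.Agent.N549.CG.Stm

/-!
# CG/KR: the Krawtchouk polynomials of even degree are not very negative

Project HG of helper549, fifth round; this file by helper835.
-/

set_option autoImplicit false

namespace Pool.Agent.N835.CG

open Finset Polynomial
open Pool.Agent.N549.CG (K S_KR)

/-- the generating function -/
noncomputable def P (m y : ℕ) : ℤ[X] := (1 - X) ^ y * (1 + X) ^ m

lemma comp_coeff (p : ℤ[X]) (k : ℕ) : (p.comp (C (-1) * X)).coeff k = p.coeff k * (-1) ^ k := by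
  rw [comp_C_mul_X_coeff]

lemma coeff_one_sub (x k : ℕ) : ((1 - X : ℤ[X]) ^ x).coeff k = (-1) ^ k * (x.choose k : ℤ) := by
  have e : ((1 - X : ℤ[X]) ^ x) = ((1 + X : ℤ[X]) ^ x).comp (C (-1) * X) := by
    rw [pow_comp, add_comp, one_comp, X_comp]
    congr 1
    rw [C_neg, C_1]
    ring
  rw [e, comp_coeff, coeff_one_add_X_pow]
  ring

lemma K_eq (m y k : ℕ) : K (m + y) k y = (P m y).coeff k := by
  unfold K P
  rw [coeff_mul, Finset.Nat.sum_antidiagonal_eq_sum_range_succ_mk]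
  refine sum_congr rfl fun j _ => ?_
  rw [coeff_one_sub, coeff_one_add_X_pow, Nat.add_sub_cancel]

/-- the partial sums -/
lemma sum_K (m y D : ℕ) : ∑ j ∈ range (D + 1), K (m + (y + 1)) j (y + 1) = (P m y).coeff D := by
  have e : ∀ j, K (m + (y + 1)) j (y + 1) = ((1 - X) * P m y).coeff j := by
    intro j
    rw [K_eq]
    congr 1
    unfold P
    rw [pow_succ]
    ring
  induction D with
  | zero =>
    rw [sum_range_one, e]
    simp [sub_mul]
  | succ D ih =>
    rw [sum_range_succ, ih, e, sub_mul, one_mul, coeff_sub, coeff_X_mul]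
    ring

/-- the symmetry -/
lemma P_symm (m y D : ℕ) (hD : Even D) : (P y m).coeff D = (P m y).coeff D := by
  have e : P y m = (P m y).comp (C (-1) * X) := by
    unfold P
    rw [mul_comp, pow_comp, pow_comp, add_comp, sub_comp, one_comp, X_comp]
    have e1 : (1 - C (-1) * X : ℤ[X]) = 1 + X := by
      rw [C_neg, C_1]
      ring
    have e2 : (1 + C (-1) * X : ℤ[X]) = 1 - X := by
      rw [C_neg, C_1]
      ring
    rw [e1, e2]
    ring
  rw [e, comp_coeff, hD.neg_one_pow, mul_one]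

/-! ### The norm -/

lemma ring_id {R : Type} [CommRing R] (a b : R) (N : ℕ) :
    ∑ y ∈ range (N + 1), (((1 - a) ^ y * (1 + a) ^ (N - y)) * ((1 - b) ^ y * (1 + b) ^ (N - y))) *
      (N.choose y : R) = 2 ^ N * (a * b + 1) ^ N := by
  have h := add_pow ((1 - a) * (1 - b)) ((1 + a) * (1 + b)) N
  have e : (1 - a) * (1 - b) + (1 + a) * (1 + b) = 2 * (a * b + 1) := by ring
  rw [e, mul_pow] at h
  rw [h]
  refine sum_congr rfl fun y _ => ?_
  congr 1
  rw [mul_pow, mul_pow]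
  ring

lemma e1 (m y : ℕ) : (C (P m y) : ℤ[X][X]) = (1 - C X) ^ y * (1 + C X) ^ m := by
  unfold P
  rw [C_mul, C_pow, C_pow, C_sub, C_add, C_1]

lemma e2 (m y : ℕ) : ((P m y).map (C : ℤ →+* ℤ[X]) : ℤ[X][X]) = (1 - X) ^ y * (1 + X) ^ m := by
  unfold P
  rw [Polynomial.map_mul, Polynomial.map_pow, Polynomial.map_pow, Polynomial.map_sub,
    Polynomial.map_add, Polynomial.map_one, Polynomial.map_X]

lemma norm_id (N : ℕ) : ∑ y ∈ range (N + 1), ((C (P (N - y) y) : ℤ[X][X]) *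
    (P (N - y) y).map (C : ℤ →+* ℤ[X])) * ((N.choose y : ℕ) : ℤ[X][X]) =
      2 ^ N * (C X * X + 1) ^ N := by
  refine Eq.trans ?_ (ring_id (C X : ℤ[X][X]) X N)
  refine sum_congr rfl fun y _ => ?_
  rw [e1, e2]

lemma norm_eq (N D : ℕ) : ∑ y ∈ range (N + 1), (N.choose y : ℤ) * (P (N - y) y).coeff D ^ 2 =
    2 ^ N * (N.choose D : ℤ) := by
  have h : ((∑ y ∈ range (N + 1), ((C (P (N - y) y) : ℤ[X][X]) *
    (P (N - y) y).map (C : ℤ →+* ℤ[X])) * (N.choose y : ℤ[X][X])).coeff D).coeff D =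
      (((2 ^ N * (C X * X + 1) ^ N : ℤ[X][X])).coeff D).coeff D := by rw [norm_id N]
  have h1 : ((∑ y ∈ range (N + 1), ((C (P (N - y) y) : ℤ[X][X]) *
    (P (N - y) y).map (C : ℤ →+* ℤ[X])) * (N.choose y : ℤ[X][X])).coeff D).coeff D =
      ∑ y ∈ range (N + 1), (N.choose y : ℤ) * (P (N - y) y).coeff D ^ 2 := by
    rw [finsetSum_coeff, finsetSum_coeff]
    refine sum_congr rfl fun y _ => ?_
    have e1 : ((N.choose y : ℕ) : ℤ[X][X]) = C (C ((N.choose y : ℕ) : ℤ)) := by simp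
    rw [e1, coeff_mul_C, coeff_C_mul, coeff_map, coeff_mul_C, coeff_mul_C]
    ring
  have h2 : (((2 ^ N * (C X * X + 1) ^ N : ℤ[X][X])).coeff D).coeff D =
      2 ^ N * (N.choose D : ℤ) := by
    have e1 : (2 ^ N : ℤ[X][X]) = C (C (2 ^ N : ℤ)) := by
      rw [C_pow, C_pow]
      rfl
    have e2 : ((C X * X + 1 : ℤ[X][X]) ^ N) = ((1 + X : ℤ[X][X]) ^ N).comp (C X * X) := by
      rw [pow_comp, add_comp, one_comp, X_comp, add_comm]
    rw [e1, coeff_C_mul, coeff_C_mul, e2, comp_C_mul_X_coeff, coeff_one_add_X_pow]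
    have e3 : ((N.choose D : ℕ) : ℤ[X]) = C ((N.choose D : ℕ) : ℤ) := by simp
    rw [e3, coeff_C_mul, coeff_X_pow_self, mul_one]
  rw [h1, h2] at h
  exact h

lemma norm_le {N y : ℕ} (hy : y ≤ N) (D : ℕ) :
    (N.choose y : ℤ) * (P (N - y) y).coeff D ^ 2 ≤ 2 ^ N * (N.choose D : ℤ) := by
  rw [← norm_eq]
  exact single_le_sum (f := fun y => (N.choose y : ℤ) * (P (N - y) y).coeff D ^ 2)
    (fun i _ => by positivity) (mem_range.2 (by omega))

/-! ### The recurrence -/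

lemma d1 (y : ℕ) : (1 - X : ℤ[X]) * derivative ((1 - X : ℤ[X]) ^ y) = -(y : ℤ[X]) * (1 - X) ^ y := by
  rcases y with _ | y
  · simp
  · rw [derivative_pow_succ, derivative_sub, derivative_one, derivative_X, pow_succ]
    simp only [map_add, map_natCast, map_one]
    push_cast
    ring

lemma d2 (y : ℕ) : (1 + X : ℤ[X]) * derivative ((1 + X : ℤ[X]) ^ y) = (y : ℤ[X]) * (1 + X) ^ y := by
  rcases y with _ | y
  · simp
  · rw [derivative_pow_succ, derivative_add, derivative_one, derivative_X, pow_succ]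
    simp only [map_add, map_natCast, map_one]
    push_cast
    ring

lemma ode (m y : ℕ) : derivative (P m y) - X * (X * derivative (P m y)) =
    C ((m : ℤ) - y) * P m y - C ((m : ℤ) + y) * (X * P m y) := by
  have h : derivative (P m y) - X * (X * derivative (P m y)) =
      (1 + X) * (1 + X) ^ m * ((1 - X) * derivative ((1 - X : ℤ[X]) ^ y)) +
      (1 - X) * (1 - X) ^ y * ((1 + X) * derivative ((1 + X : ℤ[X]) ^ m)) := by
    unfold P
    rw [derivative_mul]
    ring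
  rw [h, d1, d2, C_sub, C_add]
  unfold P
  simp only [map_natCast]
  ring

lemma coeff_Xd (p : ℤ[X]) (i : ℕ) : (X * derivative p).coeff i = i * p.coeff i := by
  rcases i with _ | i
  · simp
  · rw [coeff_X_mul, coeff_derivative]
    push_cast
    ring

lemma recur (m y i : ℕ) : ((i : ℤ) + 2) * (P m y).coeff (i + 2) =
    ((m : ℤ) - y) * (P m y).coeff (i + 1) - ((m : ℤ) + y - i) * (P m y).coeff i := by
  have h := congrArg (fun p : ℤ[X] => p.coeff (i + 1)) (ode m y)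
  simp only [coeff_sub, coeff_C_mul, coeff_X_mul, coeff_Xd, coeff_derivative] at h
  push_cast at h
  linarith

lemma P_zero (m y : ℕ) : (P m y).coeff 0 = 1 := by
  unfold P
  rw [mul_coeff_zero, coeff_one_sub, coeff_one_add_X_pow]
  simp

lemma P_one (m y : ℕ) : (P m y).coeff 1 = (m : ℤ) - y := by
  have h := congrArg (fun p : ℤ[X] => p.coeff 0) (ode m y)
  simp only [coeff_sub, coeff_C_mul, coeff_derivative] at h
  have e3 : (X * (X * derivative (P m y))).coeff 0 = 0 := by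
    rw [mul_coeff_zero, coeff_X_zero, zero_mul]
  have e4 : (X * P m y).coeff 0 = 0 := by
    rw [mul_coeff_zero, coeff_X_zero, zero_mul]
  rw [e3, e4, P_zero] at h
  push_cast at h
  linarith

/-- positivity before the first zero -/
lemma pos (m y D : ℕ) (hD : 2 * D ≤ m + y + 2) (hy : y < m)
    (hb : 4 * (D : ℤ) * ((m : ℤ) + y - D + 2) ≤ ((m : ℤ) - y) ^ 2) :
    ∀ j, j + 1 ≤ D → 0 < (P m y).coeff (j + 1) ∧
      ((m : ℤ) - y) * (P m y).coeff j ≤ 2 * D * (P m y).coeff (j + 1) := by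
  have hb0 : 0 < (m : ℤ) - y := by omega
  intro j
  induction j with
  | zero =>
    intro hj
    rw [zero_add, P_one, P_zero]
    refine ⟨hb0, ?_⟩
    have h1 : (1 : ℤ) ≤ D := by exact_mod_cast hj
    nlinarith
  | succ j ih =>
    intro hj
    obtain ⟨h1, h2⟩ := ih (by omega)
    have hr := recur m y j
    rw [show j + 1 + 1 = j + 2 from rfl]
    obtain ⟨b, hbd⟩ : ∃ b : ℤ, b = (m : ℤ) - y := ⟨_, rfl⟩
    obtain ⟨s, hs⟩ : ∃ s : ℤ, s = (m : ℤ) + y := ⟨_, rfl⟩
    obtain ⟨u, hu⟩ : ∃ u : ℤ, u = (P m y).coeff j := ⟨_, rfl⟩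
    obtain ⟨v, hv⟩ : ∃ v : ℤ, v = (P m y).coeff (j + 1) := ⟨_, rfl⟩
    obtain ⟨w, hw⟩ : ∃ w : ℤ, w = (P m y).coeff (j + 2) := ⟨_, rfl⟩
    have hD' : 2 * (D : ℤ) ≤ s + 2 := by
      rw [hs]
      exact_mod_cast hD
    rw [← hbd] at hb hb0 h2 hr ⊢
    rw [← hs] at hb hr
    rw [← hv] at h1 h2 hr ⊢
    rw [← hu] at h2 hr
    rw [← hw] at hr ⊢
    have hjD : (j : ℤ) + 2 ≤ D := by exact_mod_cast hj
    have hj0 : (0 : ℤ) ≤ j := Int.natCast_nonneg j
    have hsj : 0 ≤ s - j := by linarith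
    -- `b (j + 2) w ≥ (b² - 2 D (s - j)) v`
    have k1 : (b ^ 2 - 2 * D * (s - j)) * v ≤ b * (((j : ℤ) + 2) * w) := by
      rw [hr]
      have : (s - j) * (b * u) ≤ (s - j) * (2 * D * v) := mul_le_mul_of_nonneg_left h2 hsj
      linarith
    -- `b² (2 D - j - 2) ≥ 4 D² (s - j)`
    have k2 : 4 * (D : ℤ) ^ 2 * (s - j) ≤ b ^ 2 * (2 * D - (j + 2)) := by
      have k3 : 4 * (D : ℤ) * (s - D + 2) * (2 * D - (j + 2)) ≤ b ^ 2 * (2 * D - (j + 2)) :=
        mul_le_mul_of_nonneg_right hb (by linarith)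
      have k4 : 0 ≤ ((D : ℤ) - (j + 2)) * (s + 2 - 2 * D) :=
        mul_nonneg (by linarith) (by linarith)
      have k5 : 4 * (D : ℤ) * (s - D + 2) * (2 * D - (j + 2)) - 4 * (D : ℤ) ^ 2 * (s - j) =
          4 * D * (((D : ℤ) - (j + 2)) * (s + 2 - 2 * D)) := by ring
      have k6 : 0 ≤ 4 * (D : ℤ) * (((D : ℤ) - (j + 2)) * (s + 2 - 2 * D)) := by
        apply mul_nonneg _ k4
        linarith
      linarith
    -- the second claim
    have k7 : b * ((j + 2) * (b * v)) ≤ b * ((j + 2) * (2 * D * w)) := by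
      have k8 : (4 * (D : ℤ) ^ 2 * (s - j)) * v ≤ (b ^ 2 * (2 * D - (j + 2))) * v :=
        mul_le_mul_of_nonneg_right k2 h1.le
      have k9 : 2 * (D : ℤ) * ((b ^ 2 - 2 * D * (s - j)) * v) ≤
          2 * D * (b * (((j : ℤ) + 2) * w)) := mul_le_mul_of_nonneg_left k1 (by linarith)
      linarith
    have k10 : b * v ≤ 2 * D * w := by
      have k11 := le_of_mul_le_mul_left k7 hb0
      exact le_of_mul_le_mul_left k11 (by linarith)
    refine ⟨?_, k10⟩
    have k12 : 0 < b * v := mul_pos hb0 h1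
    have k13 : 0 < 2 * (D : ℤ) * w := lt_of_lt_of_le k12 k10
    exact (pos_iff_pos_of_mul_pos k13).1 (by linarith)

/-! ### Binomial coefficients -/

lemma choose_mono_half {N : ℕ} {a b : ℕ} (hab : a ≤ b) (hb : b ≤ N / 2) :
    N.choose a ≤ N.choose b := by
  induction hab with
  | refl => exact le_rfl
  | @step c h ih => exact (ih (by omega)).trans (Nat.choose_le_succ_of_lt_half_left (by omega))

lemma choose_mid {N y0 y : ℕ} (h0 : y0 ≤ y) (h1 : y + y0 ≤ N) : N.choose y0 ≤ N.choose y := by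
  by_cases h : y ≤ N / 2
  · exact choose_mono_half h0 h
  · rw [← Nat.choose_symm (show y ≤ N by omega)]
    exact choose_mono_half (by omega) (by omega)

/-- **CG/KR.** -/
theorem kr : S_KR := by
  intro n D y0 hD hD1 hDn hy0 hsq x hx1 hxn
  obtain ⟨N, rfl⟩ : ∃ N, n = N + 1 := ⟨n - 1, by omega⟩
  obtain ⟨y, rfl⟩ : ∃ y, x = y + 1 := ⟨x - 1, by omega⟩
  obtain ⟨m, rfl⟩ : ∃ m, N = m + y := ⟨N - y, by omega⟩
  have e0 : ∑ j ∈ range (D + 1), K (m + y + 1) j (y + 1) = (P m y).coeff D := sum_K m y D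
  rw [e0, Nat.add_sub_cancel]
  have hsq' : 4 * (D : ℝ) * ((m : ℝ) + y - D + 2) ≤ ((m : ℝ) + y - 2 * y0) ^ 2 := by
    push_cast at hsq
    have e1 : ((m : ℝ) + y + 1 - 1 - 2 * y0) = (m : ℝ) + y - 2 * y0 := by ring
    rw [e1] at hsq
    refine le_trans (le_of_eq ?_) hsq
    ring
  have hposc : ∀ a b : ℕ, a + b = m + y → b < y0 → 0 < (P a b).coeff D := by
    intro a b hab hb
    have hba : b < a := by omega
    obtain ⟨D', rfl⟩ : ∃ D', D = D' + 1 := ⟨D - 1, by omega⟩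
    refine (pos a b (D' + 1) (by omega) hba ?_ D' le_rfl).1
    have hab' : (a : ℝ) + b = (m : ℝ) + y := by exact_mod_cast hab
    have h1 : 4 * ((D' + 1 : ℕ) : ℝ) * ((a : ℝ) + b - ((D' + 1 : ℕ) : ℝ) + 2) ≤
        ((a : ℝ) - b) ^ 2 := by
      rw [hab']
      refine hsq'.trans ?_
      have h2 : (0 : ℝ) ≤ (m : ℝ) + y - 2 * y0 := by
        have : ((2 * y0 : ℕ) : ℝ) ≤ ((m + y : ℕ) : ℝ) := by exact_mod_cast (by omega)
        push_cast at this
        linarith
      have h3 : (b : ℝ) ≤ y0 := by exact_mod_cast hb.le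
      apply pow_le_pow_left₀ h2
      linarith
    exact_mod_cast h1
  have hc0 : 0 < (m + y).choose y0 := Nat.choose_pos (by omega)
  by_cases hA : y < y0
  · have h1 := hposc m y rfl hA
    have h2 : (0 : ℝ) < (((P m y).coeff D : ℤ) : ℝ) := by exact_mod_cast h1
    have h3 := Real.sqrt_nonneg (2 ^ (m + y) * ((m + y).choose D : ℝ) / ((m + y).choose y0 : ℝ))
    linarith
  by_cases hB : m < y0
  · have h1 := hposc y m (by omega) hB
    rw [P_symm m y D hD] at h1
    have h2 : (0 : ℝ) < (((P m y).coeff D : ℤ) : ℝ) := by exact_mod_cast h1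
    have h3 := Real.sqrt_nonneg (2 ^ (m + y) * ((m + y).choose D : ℝ) / ((m + y).choose y0 : ℝ))
    linarith
  · have h1 := norm_le (show y ≤ m + y by omega) D
    rw [Nat.add_sub_cancel] at h1
    have h2 : (m + y).choose y0 ≤ (m + y).choose y := choose_mid (by omega) (by omega)
    have h3 : (((P m y).coeff D : ℤ) : ℝ) ^ 2 ≤
        2 ^ (m + y) * ((m + y).choose D : ℝ) / ((m + y).choose y0 : ℝ) := by
      rw [le_div_iff₀ (by exact_mod_cast hc0)]
      have h4 : (((m + y).choose y : ℕ) : ℝ) * (((P m y).coeff D : ℤ) : ℝ) ^ 2 ≤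
          2 ^ (m + y) * ((m + y).choose D : ℝ) := by exact_mod_cast h1
      have h5 : (((m + y).choose y0 : ℕ) : ℝ) ≤ (((m + y).choose y : ℕ) : ℝ) := by
        exact_mod_cast h2
      have h6 := mul_le_mul_of_nonneg_right h5 (sq_nonneg (((P m y).coeff D : ℤ) : ℝ))
      linarith
    have h4 := Real.abs_le_sqrt h3
    exact (abs_le.1 h4).1

end Pool.Agent.N835.CG
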